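import Pool.Agent.Lib.MP_146262_an.Defs

set_option autoImplicit false

open UniformSpace Topology Filter

namespace Pool.Agent.Lib.MP_146262_an

section WeakTopology

variable {X : Type*} [NormedAddCommGroup X] [NormedSpace ℝ X]

theorem weak_nhds_basis {U : Set (WeakSpace ℝ X)} (hU : IsOpen U) {x : X}
    (hx : toWeakSpace ℝ X x ∈ U) :
    ∃ (n : ℕ) (F : Fin n → (X →L[ℝ] ℝ)), ∀ y : X, (∀ i, |F i (y - x)| < 1) →
      toWeakSpace ℝ X y ∈ U := by
  obtain ⟨O, hO, rfl⟩ := isOpen_induced_iff.1 hU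
  obtain ⟨I, u, hu, hsub⟩ := isOpen_pi_iff.1 hO _ hx
  have hball : ∀ f : X →L[ℝ] ℝ, ∃ r : ℝ, 0 < r ∧ (f ∈ I → Metric.ball (f x) r ⊆ u f) := by
    intro f
    by_cases hf : f ∈ I
    · obtain ⟨r, hr, hr2⟩ := Metric.isOpen_iff.1 (hu f hf).1 (f x) (hu f hf).2
      exact ⟨r, hr, fun _ => hr2⟩
    · exact ⟨1, one_pos, fun h => absurd h hf⟩
  choose r hr hr2 using hball
  let e := I.equivFin
  refine ⟨I.card, fun i => (r (e.symm i))⁻¹ • ((e.symm i : X →L[ℝ] ℝ)), fun y hy => ?_⟩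
  refine hsub ?_
  intro f hf
  have h := hy (e ⟨f, hf⟩)
  simp only [Equiv.symm_apply_apply] at h
  refine hr2 f hf ?_
  change f y ∈ Metric.ball (f x) (r f)
  rw [Metric.mem_ball, Real.dist_eq]
  have h3 : |(r f)⁻¹ * (f (y - x))| < 1 := h
  rw [abs_mul, abs_inv, abs_of_pos (hr f), map_sub, inv_mul_lt_iff₀ (hr f), mul_one] at h3
  exact h3

theorem isOpen_weak_nhd {n : ℕ} (F : Fin n → (X →L[ℝ] ℝ)) (x : X) :
    IsOpen {y : WeakSpace ℝ X | ∀ i, |F i ((toWeakSpace ℝ X).symm y - x)| < 1} := by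
  have : {y : WeakSpace ℝ X | ∀ i, |F i ((toWeakSpace ℝ X).symm y - x)| < 1} =
      ⋂ i, {y : WeakSpace ℝ X | |F i ((toWeakSpace ℝ X).symm y - x)| < 1} := by
    ext y; simp
  rw [this]
  refine isOpen_iInter_of_finite fun i => ?_
  have hc : Continuous fun y : WeakSpace ℝ X => F i ((toWeakSpace ℝ X).symm y) :=
    WeakBilin.eval_continuous (topDualPairing ℝ X).flip (F i)
  simp only [map_sub]
  exact isOpen_lt ((hc.sub continuous_const).abs) continuous_const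

theorem isOpen_preimage_toWeakSpace {U : Set (WeakSpace ℝ X)} (hU : IsOpen U) :
    IsOpen ((toWeakSpace ℝ X) ⁻¹' U) :=
  hU.preimage (toWeakSpaceCLM ℝ X).continuous

end WeakTopology

section Completion

variable (μ : Pn)

theorem norm_emb (v : V) : ‖emb μ v‖ = μ.1 v :=
  letI := seminormedGroup μ
  Completion.norm_coe v

theorem emb_add (u v : V) : emb μ (u + v) = emb μ u + emb μ v :=
  letI := seminormedGroup μ
  Completion.coe_add u v

theorem emb_sub (u v : V) : emb μ (u - v) = emb μ u - emb μ v :=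
  letI := seminormedGroup μ
  Completion.coe_sub u v

theorem denseRange_emb : DenseRange (emb μ) :=
  letI := seminormedGroup μ
  Completion.denseRange_coe (α := V)

/-- The real scalar multiplication of `X_μ` extends the rational scalar multiplication of `V`. -/
theorem ratCast_smul_emb (q : ℚ) (v : V) : (q : ℝ) • emb μ v = emb μ (q • v) := by
  have h1 : (q : ℝ) • emb μ v = q • emb μ v := realSMul_ratCast q (emb μ v)
  rw [h1]
  letI := seminormedGroup μ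
  letI := seminormedSpace μ
  exact (Completion.coe_smul q v).symm

theorem exists_functional {f : V → ℝ} (hadd : ∀ u v, f (u + v) = f u + f v) {M : ℝ}
    (hM : ∀ v, |f v| ≤ M * μ.1 v) : ∃ F : XSp μ →L[ℝ] ℝ, ∀ v, F (emb μ v) = f v := by
  letI := seminormedGroup μ
  let g : V →+ ℝ := AddMonoidHom.mk' f hadd
  have hg : Continuous g := by
    refine (AddMonoidHomClass.continuous_of_bound g M fun v => ?_)
    exact hM v
  let G : Completion V →+ ℝ := g.extension hg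
  have hG : Continuous G := g.continuous_extension hg
  let F : XSp μ →L[ℝ] ℝ := AddMonoidHom.toRealLinearMap (E := XSp μ) G hG
  exact ⟨F, fun v => g.extension_coe hg _⟩

/-- approximation of points of the unit ball by elements of `V` -/
theorem exists_emb_near {U : Set (XSp μ)} (hU : IsOpen U) {w : XSp μ} (hw : w ∈ U)
    (hw1 : ‖w‖ ≤ 1) {δ : ℝ} (hδ : 0 < δ) :
    ∃ v : V, μ.1 v < 1 ∧ emb μ v ∈ U ∧ ‖w - emb μ v‖ < δ := by
  have hO : IsOpen (U ∩ Metric.ball w δ) := hU.inter Metric.isOpen_ball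
  have hc : Tendsto (fun t : ℝ => t • w) (𝓝[<] 1) (𝓝 w) := by
    have : Tendsto (fun t : ℝ => t • w) (𝓝 1) (𝓝 ((1 : ℝ) • w)) :=
      (continuous_id.smul continuous_const).tendsto 1
    rw [one_smul] at this
    exact this.mono_left nhdsWithin_le_nhds
  have h1 : ∀ᶠ t in 𝓝[<] (1 : ℝ), t • w ∈ U ∩ Metric.ball w δ :=
    hc.eventually (hO.mem_nhds ⟨hw, Metric.mem_ball_self hδ⟩)
  have h2 : ∀ᶠ t in 𝓝[<] (1 : ℝ), t < 1 := self_mem_nhdsWithin
  have h3 : ∀ᶠ t in 𝓝[<] (1 : ℝ), 0 < t :=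
    nhdsWithin_le_nhds (lt_mem_nhds one_pos)
  obtain ⟨t, ht1, ht2, ht3⟩ := (h1.and (h2.and h3)).exists
  have hO2 : IsOpen ((U ∩ Metric.ball w δ) ∩ Metric.ball 0 1) := hO.inter Metric.isOpen_ball
  have hne : ((U ∩ Metric.ball w δ) ∩ Metric.ball (0 : XSp μ) 1).Nonempty := by
    refine ⟨t • w, ht1, ?_⟩
    rw [mem_ball_zero_iff, norm_smul, Real.norm_eq_abs, abs_of_pos ht3]
    calc t * ‖w‖ ≤ t * 1 := by gcongr
      _ < 1 := by linarith
  obtain ⟨v, hv⟩ := (denseRange_emb μ).exists_mem_open hO2 hne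
  refine ⟨v, ?_, hv.1.1, ?_⟩
  · have := hv.2
    rwa [mem_ball_zero_iff, norm_emb] at this
  · have := hv.1.2
    rwa [Metric.mem_ball, dist_comm, dist_eq_norm] at this

end Completion

section ClosedProjection

theorem isClosed_exists_bdd {n : ℕ} (M : ℝ) {Q : Set (Pn × (Fin n → V → ℝ))}
    (hQ : IsClosed Q) :
    IsClosed {μ : Pn | ∃ f : Fin n → V → ℝ, (∀ i v, |f i v| ≤ M * μ.1 v) ∧ (μ, f) ∈ Q} := by
  rw [isClosed_iff_ultrafilter]
  intro μ 𝒰 h𝒰 hs
  have hch : ∀ ν : Pn, ∃ f : Fin n → V → ℝ,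
      ν ∈ {μ : Pn | ∃ f : Fin n → V → ℝ, (∀ i v, |f i v| ≤ M * μ.1 v) ∧ (μ, f) ∈ Q} →
      (∀ i v, |f i v| ≤ M * ν.1 v) ∧ (ν, f) ∈ Q := by
    intro ν
    by_cases hν : ν ∈ {μ : Pn | ∃ f : Fin n → V → ℝ, (∀ i v, |f i v| ≤ M * μ.1 v) ∧ (μ, f) ∈ Q}
    · obtain ⟨f, hf⟩ := hν
      exact ⟨f, fun _ => hf⟩
    · exact ⟨0, fun h => absurd h hν⟩
  choose F hF using hch
  have hFev : ∀ᶠ ν in (𝒰 : Filter Pn), (∀ i v, |F ν i v| ≤ M * ν.1 v) ∧ (ν, F ν) ∈ Q :=
    Filter.mem_of_superset hs fun ν hν => hF ν hν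
  have hval : ∀ v : V, Tendsto (fun ν : Pn => M * ν.1 v) 𝒰 (𝓝 (M * μ.1 v)) := by
    intro v
    have hc : Continuous fun ν : Pn => M * ν.1 v :=
      continuous_const.mul ((continuous_apply v).comp continuous_subtype_val)
    exact (hc.tendsto μ).mono_left h𝒰
  have hlim : ∀ i v, ∃ a : ℝ, Tendsto (fun ν => F ν i v) 𝒰 (𝓝 a) := by
    intro i v
    have hb : ∀ᶠ ν in (𝒰 : Filter Pn),
        F ν i v ∈ Set.Icc (-(M * μ.1 v + 1)) (M * μ.1 v + 1) := by
      have h1 : ∀ᶠ ν in (𝒰 : Filter Pn), M * ν.1 v < M * μ.1 v + 1 :=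
        (hval v).eventually (gt_mem_nhds (by linarith))
      filter_upwards [h1, hFev] with ν h1 h2
      exact abs_le.1 ((h2.1 i v).trans h1.le)
    have hK : IsCompact (Set.Icc (-(M * μ.1 v + 1)) (M * μ.1 v + 1)) := isCompact_Icc
    obtain ⟨a, -, ha⟩ := hK.ultrafilter_le_nhds (𝒰.map (fun ν => F ν i v))
      (le_principal_iff.2 hb)
    exact ⟨a, ha⟩
  choose g hg using hlim
  have hFt : Tendsto F 𝒰 (𝓝 g) := by
    rw [tendsto_pi_nhds]
    intro i
    rw [tendsto_pi_nhds]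
    intro v
    exact hg i v
  refine ⟨g, fun i v => ?_, ?_⟩
  · exact le_of_tendsto_of_tendsto (hg i v).abs (hval v) (hFev.mono fun ν h => h.1 i v)
  · have hid : Tendsto (fun ν : Pn => ν) 𝒰 (𝓝 μ) := h𝒰
    exact hQ.mem_of_tendsto (hid.prodMk_nhds hFt) (hFev.mono fun ν h => h.2)

end ClosedProjection

end Pool.Agent.Lib.MP_146262_an
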