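import Mathlib

/-!
Coding of separable real Banach spaces by pseudonorms on the rational vector space with a
countable Hamel basis.
-/

set_option autoImplicit false

open UniformSpace Topology

namespace Pool.Agent.Lib.MP_146262_an

/-- The rational vector space `V` with countable Hamel basis `(e_m)`. -/
abbrev V : Type := ℕ →₀ ℚ

/-- Pseudonorms on `V`. -/
structure IsPseudonorm (μ : V → ℝ) : Prop where
  nonneg : ∀ v, 0 ≤ μ v
  add_le : ∀ u v, μ (u + v) ≤ μ u + μ v
  smul_eq : ∀ (q : ℚ) (v : V), μ (q • v) = |(q : ℝ)| * μ v

theorem IsPseudonorm.map_zero {μ : V → ℝ} (hμ : IsPseudonorm μ) : μ 0 = 0 := by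
  have h := hμ.smul_eq 0 0
  rwa [zero_smul, Rat.cast_zero, abs_zero, zero_mul] at h

theorem IsPseudonorm.map_neg {μ : V → ℝ} (hμ : IsPseudonorm μ) (v : V) : μ (-v) = μ v := by
  have h := hμ.smul_eq (-1) v
  rwa [neg_smul, one_smul, Rat.cast_neg, Rat.cast_one, abs_neg, abs_one, one_mul] at h

/-- The set of all pseudonorms on `V`, with the topology of pointwise convergence (the subspace
topology inherited from the product topology on `V → ℝ`). -/
abbrev Pn : Type := {μ : V → ℝ // IsPseudonorm μ}

/-- The seminormed group structure on `V` given by the pseudonorm `μ`. -/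
@[reducible] noncomputable def seminormedGroup (μ : Pn) : SeminormedAddCommGroup V :=
  AddGroupSeminorm.toSeminormedAddCommGroup
    { toFun := μ.1
      map_zero' := μ.2.map_zero
      add_le' := μ.2.add_le
      neg' := μ.2.map_neg }

/-- The seminormed rational vector space structure on `V` given by the pseudonorm `μ`. -/
@[reducible] noncomputable def seminormedSpace (μ : Pn) :
    @NormedSpace ℚ V _ (seminormedGroup μ) :=
  letI := seminormedGroup μ
  { norm_smul_le := fun q v => by
      have h := μ.2.smul_eq q v
      have h2 : ‖q‖ = |(q : ℝ)| := by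
        rw [← Rat.norm_cast_real, Real.norm_eq_abs]
      rw [h2]
      exact h.le }

section RealStructure

/-! ### The real structure of a complete normed rational vector space -/

variable {E : Type*} [NormedAddCommGroup E] [NormedSpace ℚ E]

/-- Multiplication of `x` by a real number `r`: the value at `r` of the continuous extension of
`q ↦ q • x` from `ℚ` to `ℝ`. -/
noncomputable def realSMul (r : ℝ) (x : E) : E :=
  Rat.isDenseEmbedding_coe_real.isDenseInducing.extend (fun q : ℚ => q • x) r

theorem uniformContinuous_ratSMul (x : E) : UniformContinuous (fun q : ℚ => q • x) := by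
  have : LipschitzWith (‖x‖₊) (fun q : ℚ => q • x) := by
    refine LipschitzWith.of_dist_le_mul fun p q => ?_
    rw [dist_eq_norm, ← sub_smul, norm_smul, dist_eq_norm, mul_comm]
    rfl
  exact this.uniformContinuous

variable [CompleteSpace E]

theorem uniformContinuous_realSMul (x : E) : UniformContinuous (fun r : ℝ => realSMul r x) :=
  uniformContinuous_uniformly_extend Rat.isUniformEmbedding_coe_real.isUniformInducing
    Rat.isDenseEmbedding_coe_real.dense (uniformContinuous_ratSMul x)

theorem continuous_realSMul (x : E) : Continuous (fun r : ℝ => realSMul r x) :=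
  (uniformContinuous_realSMul x).continuous

omit [CompleteSpace E] in
@[simp] theorem realSMul_ratCast (q : ℚ) (x : E) : realSMul (q : ℝ) x = q • x :=
  Rat.isDenseEmbedding_coe_real.isDenseInducing.extend_eq
    (uniformContinuous_ratSMul x).continuous q

theorem eq_of_ratCast {F : Type*} [TopologicalSpace F] [T2Space F] {f g : ℝ → F}
    (hf : Continuous f) (hg : Continuous g) (h : ∀ q : ℚ, f (q : ℝ) = g (q : ℝ)) (r : ℝ) :
    f r = g r :=
  congrFun (Rat.isDenseEmbedding_coe_real.dense.equalizer hf hg (funext h)) r

theorem realSMul_add (r : ℝ) (x y : E) : realSMul r (x + y) = realSMul r x + realSMul r y :=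
  eq_of_ratCast (f := fun r => realSMul r (x + y)) (g := fun r => realSMul r x + realSMul r y)
    (continuous_realSMul (x + y)) ((continuous_realSMul x).add (continuous_realSMul y))
    (fun q => by simp only [realSMul_ratCast, smul_add]) r

theorem norm_realSMul (r : ℝ) (x : E) : ‖realSMul r x‖ = |r| * ‖x‖ :=
  eq_of_ratCast (f := fun r => ‖realSMul r x‖) (g := fun r => |r| * ‖x‖)
    (continuous_realSMul x).norm (continuous_abs.mul continuous_const)
    (fun q => by
      simp only [realSMul_ratCast, norm_smul]
      rw [← Rat.norm_cast_real, Real.norm_eq_abs]) r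

theorem add_realSMul (r s : ℝ) (x : E) : realSMul (r + s) x = realSMul r x + realSMul s x :=
  eq_of_ratCast (f := fun r => realSMul (r + s) x) (g := fun r => realSMul r x + realSMul s x)
    ((continuous_realSMul x).comp (continuous_id.add continuous_const))
    ((continuous_realSMul x).add continuous_const)
    (fun q => eq_of_ratCast (f := fun s => realSMul ((q : ℝ) + s) x)
      (g := fun s => realSMul (q : ℝ) x + realSMul s x)
      ((continuous_realSMul x).comp (continuous_const.add continuous_id))
      (continuous_const.add (continuous_realSMul x))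
      (fun p => by
        simp only [← Rat.cast_add, realSMul_ratCast, add_smul]) s) r

theorem realSMul_zero (r : ℝ) : realSMul r (0 : E) = 0 := by
  have := norm_realSMul r (0 : E)
  simpa using this

theorem realSMul_neg (r : ℝ) (x : E) : realSMul r (-x) = - realSMul r x := by
  have h := realSMul_add r x (-x)
  rw [add_neg_cancel, realSMul_zero] at h
  exact (neg_eq_of_add_eq_zero_right h.symm).symm

theorem continuous_realSMul_right (r : ℝ) : Continuous (fun x : E => realSMul r x) := by
  refine LipschitzWith.continuous (K := ‖r‖₊) (LipschitzWith.of_dist_le_mul fun x y => ?_)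
  rw [dist_eq_norm, dist_eq_norm, sub_eq_add_neg, ← realSMul_neg, ← realSMul_add,
    norm_realSMul, ← sub_eq_add_neg]
  rfl

theorem mul_realSMul (r s : ℝ) (x : E) : realSMul (r * s) x = realSMul r (realSMul s x) :=
  eq_of_ratCast (f := fun r => realSMul (r * s) x) (g := fun r => realSMul r (realSMul s x))
    ((continuous_realSMul x).comp (continuous_id.mul continuous_const))
    (continuous_realSMul (realSMul s x))
    (fun q => eq_of_ratCast (f := fun s => realSMul ((q : ℝ) * s) x)
      (g := fun s => realSMul (q : ℝ) (realSMul s x))
      ((continuous_realSMul x).comp (continuous_const.mul continuous_id))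
      ((continuous_realSMul_right (q : ℝ)).comp (continuous_realSMul x))
      (fun p => by
        simp only [← Rat.cast_mul, realSMul_ratCast, mul_smul]) s) r

/-- The real normed space structure of a complete normed rational vector space: the scalar
multiplication `q ↦ q • x` is extended continuously from `ℚ` to `ℝ`. -/
@[reducible] noncomputable def realNormedSpace : NormedSpace ℝ E where
  smul := realSMul
  one_smul x := by
    change realSMul (1 : ℝ) x = x
    have := realSMul_ratCast (1 : ℚ) x
    simpa using this
  mul_smul r s x := mul_realSMul r s x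
  smul_zero r := realSMul_zero r
  smul_add r x y := realSMul_add r x y
  add_smul r s x := add_realSMul r s x
  zero_smul x := by
    change realSMul (0 : ℝ) x = 0
    have := realSMul_ratCast (0 : ℚ) x
    simpa using this
  norm_smul_le r x := by
    change ‖realSMul r x‖ ≤ ‖r‖ * ‖x‖
    rw [norm_realSMul, Real.norm_eq_abs]

end RealStructure

/-- The real Banach space `X_μ`: the (Hausdorff) completion of `V` with respect to the seminorm
`μ`, that is, the completion of `V / N_μ` with `N_μ = {v : μ v = 0}`. -/
def XSp (μ : Pn) : Type :=
  letI := seminormedGroup μ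
  Completion V

/-- The norm of `X_μ` (extending `μ`). -/
noncomputable instance (μ : Pn) : NormedAddCommGroup (XSp μ) :=
  letI := seminormedGroup μ
  (inferInstance : NormedAddCommGroup (Completion V))

/-- The rational scalar multiplication of `X_μ` (extending the one of `V`). -/
noncomputable instance (μ : Pn) : NormedSpace ℚ (XSp μ) :=
  letI := seminormedGroup μ
  letI := seminormedSpace μ
  (inferInstance : NormedSpace ℚ (Completion V))

instance (μ : Pn) : CompleteSpace (XSp μ) :=
  letI := seminormedGroup μ
  (inferInstance : CompleteSpace (Completion V))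

/-- The real scalar multiplication of `X_μ` (the continuous extension of the rational one). -/
noncomputable instance (μ : Pn) : NormedSpace ℝ (XSp μ) := realNormedSpace

/-- The canonical map `V → X_μ`. -/
noncomputable def emb (μ : Pn) (v : V) : XSp μ :=
  letI := seminormedGroup μ
  (v : Completion V)

/-- The set of pseudonorms `μ` with `X_μ` infinite-dimensional, with the topology of pointwise
convergence. -/
abbrev PInf : Type := {μ : Pn // ¬ FiniteDimensional ℝ (XSp μ)}

section DiameterTwo

variable (X : Type*) [NormedAddCommGroup X] [NormedSpace ℝ X]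

/-- `W` is a relatively weakly open subset of the closed unit ball `B_X`. -/
def IsRelWeaklyOpen (W : Set X) : Prop :=
  ∃ U : Set (WeakSpace ℝ X), IsOpen U ∧
    W = Metric.closedBall (0 : X) 1 ∩ (toWeakSpace ℝ X) ⁻¹' U

/-- The diameter two property: every nonempty relatively weakly open subset of `B_X` has
diameter `2`. -/
def HasD2P : Prop :=
  ∀ W : Set X, IsRelWeaklyOpen X W → W.Nonempty → Metric.diam W = 2

/-- The diametral diameter two property: for every nonempty relatively weakly open subset `W` of
`B_X`, every `x ∈ W` and every `ε > 0` there is `y ∈ W` with `‖x - y‖ ≥ 1 + ‖x‖ - ε`. -/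
def HasDD2P : Prop :=
  ∀ W : Set X, IsRelWeaklyOpen X W → ∀ x ∈ W, ∀ ε : ℝ, 0 < ε →
    ∃ y ∈ W, 1 + ‖x‖ - ε ≤ ‖x - y‖

end DiameterTwo

end Pool.Agent.Lib.MP_146262_an
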